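import Mathlib
import Pool.Agent.T9h56.ES.Main

/-!
# One eighth of the primes `q ≤ X` meet a second new prime in the first `n + k` which they divide

For positive integers `n` and `k ≥ 0` let `v(n; k)` be the number of the primes which divide `n + k` and
none of `n, …, n + k - 1`, and let `V(n; k)` be the number of the primes `p` dividing `n + k` such that
the exact power of `p` in `n + k` divides none of `n, …, n + k - 1`; `v_l(n)` and `V_l(n)` are the
maxima over `k ≥ l`. For a prime `q` let `k(q)` be the least `k ≥ 0` with `q ∣ n + k`.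

1. Let `n` be large and `(log n) ^ 40 ≤ X ≤ exp (√(log n) / 200)`. For at least one eighth of the primes
   `q ≤ X` one has `k(q) ≥ 1` and `v(n; k(q)) ≥ 2`: the prime `q` is not the only new prime of
   `n + k(q)`.
2. For these `n` and `X` there are at least `X / (52 log n)` integers `1 ≤ k ≤ X` with `v(n; k) ≥ 2`.
3. In particular (`X` a power of `log n`), for every `l` the equations `V_l(n) = 1` and `v_l(n) = 1` have
   only finitely many solutions. For `l = 1` this is the positive answer to Q1.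

The starting files (`Pool.Agent.Helper377`) prove 3, that is the existence of one `k ≥ l` with
`v(n; k) ≥ 2`, for all large `n`; 1 and 2 are new.

Proof. For the other primes `q` the number `n + k(q)` has no prime factor larger than `X`, and `k(q)`
determines `q`. By the method of Erdős and Selfridge, if there were more than `6 / 7` of them, then most
primes `p ≤ X` would have a power `p ^ a > n ^ (5 / 6)` dividing some `n + k`, `k ≤ X`. Two of these primes
would have the same exponent `a` and a difference at most `(log n) ^ 2`, which is impossible by Padé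
approximation of `(1 + t) ^ a` with a degree proportional to `a`.
-/

namespace Pool.Agent.Results.MP_8ddb3c_nt.TwoNewPrimes

open Pool.Agent.T9h56.ES Pool.Agent.Helper377.Main

/-- The number of the primes which divide `n + k` and none of `n, …, n + k - 1`. -/
noncomputable def v (n k : ℕ) : ℕ := {p : ℕ | p.Prime ∧ p ∣ n + k ∧ ∀ i < k, ¬ p ∣ n + i}.ncard

/-- The number of the primes `p` dividing `n + k` such that the exact power of `p` in `n + k` divides
none of `n, …, n + k - 1`. -/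
noncomputable def V (n k : ℕ) : ℕ :=
  {p : ℕ | p.Prime ∧ p ∣ n + k ∧ ∀ i < k, ¬ p ^ ((n + k).factorization p) ∣ n + i}.ncard

/-- The maximum of `v(n; k)` over `k ≥ l`. -/
noncomputable def vmax (l n : ℕ) : ℕ∞ := ⨆ k ≥ l, (v n k : ℕ∞)

/-- The maximum of `V(n; k)` over `k ≥ l`. -/
noncomputable def Vmax (l n : ℕ) : ℕ∞ := ⨆ k ≥ l, (V n k : ℕ∞)

/-- The least `k` such that `q` divides `n + k`. -/
noncomputable def first (n q : ℕ) : ℕ := sInf {k : ℕ | q ∣ n + k}

theorem finite_dvd (n k : ℕ) (h : 0 < n + k) : {p : ℕ | p.Prime ∧ p ∣ n + k}.Finite :=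
  (Set.finite_le_nat (n + k)).subset fun _ hr => Nat.le_of_dvd h hr.2

theorem v_le_V (n k : ℕ) (h : 0 < n + k) : v n k ≤ V n k := by
  refine Set.ncard_le_ncard ?_ ((finite_dvd n k h).subset fun p hp => ⟨hp.1, hp.2.1⟩)
  intro p hp
  refine ⟨hp.1, hp.2.1, fun i hi hd => hp.2.2 i hi ?_⟩
  exact (dvd_pow_self p (hp.1.factorization_pos_of_dvd (by omega) hp.2.1).ne').trans hd

theorem two_le_v {n k : ℕ} (h : 0 < n + k) (ht : Two n k) : 2 ≤ v n k := by
  obtain ⟨p, q, hp, hq, hpq, hkp, hkq, hpd, hqd⟩ := ht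
  have hnew : ∀ r : ℕ, r.Prime → k < r → r ∣ n + k → ∀ i < k, ¬ r ∣ n + i := by
    intro r hr hkr hrd i hi hri
    have h1 : r ∣ (n + k) - (n + i) := Nat.dvd_sub hrd hri
    have h2 : (n + k) - (n + i) = k - i := by omega
    rw [h2] at h1
    have h3 := Nat.le_of_dvd (by omega) h1
    omega
  rw [← Set.ncard_pair hpq]
  refine Set.ncard_le_ncard ?_ ((finite_dvd n k h).subset fun p hp => ⟨hp.1, hp.2.1⟩)
  intro r hr
  rcases hr with rfl | hr
  · exact ⟨hp, hpd, hnew _ hp hkp hpd⟩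
  · rw [Set.mem_singleton_iff] at hr
    subst hr
    exact ⟨hq, hqd, hnew _ hq hkq hqd⟩

theorem first_eq {n q : ℕ} (hq : q.Prime) : first n q = kk n q := by
  have h1 : q ∣ n + kk n q := kdvd q n hq.pos
  apply le_antisymm
  · exact Nat.sInf_le h1
  · have h2 : q ∣ n + first n q := Nat.sInf_mem (s := {k : ℕ | q ∣ n + k}) ⟨_, h1⟩
    by_contra hcon
    rw [not_le] at hcon
    have h3 : q ∣ (n + kk n q) - (n + first n q) := Nat.dvd_sub h1 h2
    have h4 := Nat.le_of_dvd (by omega) h3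
    have h5 : kk n q < q := Nat.mod_lt _ hq.pos
    omega

/-- The numerical conditions of the theorems of `T9h56/ES/Main`. -/
theorem conditions {n X : ℕ} (hn : (20000 : ℝ) ≤ Real.log n) (h1 : (Real.log n) ^ 40 ≤ X)
    (h2 : (X : ℝ) ≤ Real.exp (√(Real.log n) / 200)) :
    ∃ L w z : ℕ, 8 ≤ w ∧ 2 ^ (w - 1) ≤ L ∧ L < 2 ^ w ∧ 2 ^ L ≤ n ∧ n < 2 ^ (L + 1) ∧ 31 * w ≤ z ∧
      2000 * (z + w) ^ 2 ≤ L ∧ 2 ^ (z + w - 1) ≤ X ∧ X < 2 ^ (z + w) ∧
      (L : ℝ) * 0.69314718 ≤ Real.log n := by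
  set ℓ := Real.log n with hℓ
  have hlog2 := Real.log_two_gt_d9
  have hlog2' := Real.log_two_lt_d9
  have hn0 : n ≠ 0 := by
    rintro rfl
    rw [hℓ, Nat.cast_zero, Real.log_zero] at hn
    norm_num at hn
  have hnpos : (0 : ℝ) < n := by exact_mod_cast Nat.pos_of_ne_zero hn0
  obtain ⟨L, hL⟩ : ∃ L, L = Nat.log 2 n := ⟨_, rfl⟩
  have hn1 : 2 ^ L ≤ n := by rw [hL]; exact Nat.pow_log_le_self 2 hn0
  have hn2 : n < 2 ^ (L + 1) := by rw [hL]; exact Nat.lt_pow_succ_log_self (by norm_num) n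
  have hLup : (L : ℝ) * Real.log 2 ≤ ℓ := by
    rw [← Real.log_pow, hℓ]
    exact Real.log_le_log (by positivity) (by exact_mod_cast hn1)
  have hLlow : ℓ < (L + 1 : ℝ) * Real.log 2 := by
    have : ((L + 1 : ℕ) : ℝ) * Real.log 2 = Real.log ((2 : ℝ) ^ (L + 1)) := by
      rw [Real.log_pow]
    push_cast at this
    rw [this, hℓ]
    exact Real.log_lt_log hnpos (by exact_mod_cast hn2)
  have hLnn : (0 : ℝ) ≤ L := Nat.cast_nonneg _
  have hL1 : ℓ ≤ L := by nlinarith
  have hL2 : (L : ℝ) ≤ 2 * ℓ := by nlinarith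
  have hL0 : L ≠ 0 := by
    rintro rfl
    norm_num at hL1
    linarith
  obtain ⟨w, hw⟩ : ∃ w, w = Nat.log 2 L + 1 := ⟨_, rfl⟩
  have hw1 : 2 ^ (w - 1) ≤ L := by rw [hw, Nat.add_sub_cancel]; exact Nat.pow_log_le_self 2 hL0
  have hw2 : L < 2 ^ w := by rw [hw]; exact Nat.lt_pow_succ_log_self (by norm_num) L
  have hw8 : 8 ≤ w := by
    by_contra hcon
    have h3 : 2 ^ w ≤ 2 ^ 7 := Nat.pow_le_pow_right (by norm_num) (by omega)
    have h4 : L < 128 := by omega
    have h5 : (L : ℝ) < 128 := by exact_mod_cast h4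
    linarith
  have hXpos : (0 : ℝ) < X := lt_of_lt_of_le (by positivity) h1
  have hX0 : X ≠ 0 := by
    rintro rfl
    norm_num at hXpos
  obtain ⟨y, hy⟩ : ∃ y, y = Nat.log 2 X + 1 := ⟨_, rfl⟩
  have hy1 : 2 ^ (y - 1) ≤ X := by rw [hy, Nat.add_sub_cancel]; exact Nat.pow_log_le_self 2 hX0
  have hy2 : X < 2 ^ y := by rw [hy]; exact Nat.lt_pow_succ_log_self (by norm_num) X
  have hypos : 1 ≤ y := by omega
  -- `32 w ≤ y`
  have hwy : 32 * w ≤ y := by
    by_contra hcon
    rw [not_le] at hcon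
    have h3 : (X : ℝ) < 2 ^ (32 * (w - 1) + 31) := by
      have h4 : X < 2 ^ (32 * (w - 1) + 31) :=
        lt_of_lt_of_le hy2 (Nat.pow_le_pow_right (by norm_num) (by omega))
      exact_mod_cast h4
    have h4 : ((2 : ℝ) ^ (w - 1)) ^ 32 ≤ (2 * ℓ) ^ 32 := by
      apply pow_le_pow_left₀ (by positivity)
      calc ((2 : ℝ) ^ (w - 1)) ≤ L := by exact_mod_cast hw1
        _ ≤ 2 * ℓ := hL2
    have h5 : (2 : ℝ) ^ (32 * (w - 1) + 31) = ((2 : ℝ) ^ (w - 1)) ^ 32 * 2 ^ 31 := by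
      rw [pow_add, ← pow_mul, mul_comm 32 (w - 1)]
    have h6 : (2 * ℓ) ^ 32 * 2 ^ 31 ≤ ℓ ^ 40 := by
      have h7 : (2 : ℝ) ^ 63 ≤ ℓ ^ 8 := by
        calc (2 : ℝ) ^ 63 ≤ 20000 ^ 8 := by norm_num
          _ ≤ ℓ ^ 8 := pow_le_pow_left₀ (by norm_num) hn _
      have hp : (0 : ℝ) ≤ ℓ ^ 32 := by positivity
      calc (2 * ℓ) ^ 32 * 2 ^ 31 = ℓ ^ 32 * 2 ^ 63 := by ring
        _ ≤ ℓ ^ 32 * ℓ ^ 8 := mul_le_mul_of_nonneg_left h7 hp
        _ = ℓ ^ 40 := by ring
    have h7 : ((2 : ℝ) ^ (w - 1)) ^ 32 * 2 ^ 31 ≤ (2 * ℓ) ^ 32 * 2 ^ 31 :=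
      mul_le_mul_of_nonneg_right h4 (by positivity)
    rw [h5] at h3
    linarith
  -- `2000 y ^ 2 ≤ L`
  have hyL : 2000 * y ^ 2 ≤ L := by
    set s := √ℓ with hs
    have hs2 : s ^ 2 = ℓ := Real.sq_sqrt (by linarith)
    have hs0 : 0 ≤ s := Real.sqrt_nonneg _
    have hs1 : 141 ≤ s := by
      rw [hs]
      apply Real.le_sqrt_of_sq_le
      norm_num
      linarith
    have h3 : ((y - 1 : ℕ) : ℝ) * Real.log 2 ≤ s / 200 := by
      rw [← Real.log_pow]
      rw [← Real.log_exp (s / 200)]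
      apply Real.log_le_log (by positivity)
      refine le_trans ?_ h2
      exact_mod_cast hy1
    rw [Nat.cast_sub hypos, Nat.cast_one] at h3
    have hynn : (1 : ℝ) ≤ y := by exact_mod_cast hypos
    have h4 : ((y : ℝ) - 1) * 0.69 ≤ s / 200 :=
      le_trans (mul_le_mul_of_nonneg_left (by linarith) (by linarith)) h3
    have h5 : (y : ℝ) ≤ s / 60 := by linarith
    have h6 : (y : ℝ) ^ 2 ≤ (s / 60) ^ 2 := pow_le_pow_left₀ (by linarith) h5 _
    have h7 : 2000 * (y : ℝ) ^ 2 ≤ L := by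
      have : (s / 60) ^ 2 = ℓ / 3600 := by rw [div_pow, hs2]; norm_num
      rw [this] at h6
      linarith
    exact_mod_cast h7
  refine ⟨L, w, y - w, hw8, hw1, hw2, hn1, hn2, by omega, ?_, ?_, ?_, ?_⟩
  · rw [Nat.sub_add_cancel (by omega)]; exact hyL
  · rw [Nat.sub_add_cancel (by omega)]; exact hy1
  · rw [Nat.sub_add_cancel (by omega)]; exact hy2
  · exact le_trans (mul_le_mul_of_nonneg_left (by linarith) hLnn) hLup

theorem result :
    (∃ n₀ : ℕ, ∀ n ≥ n₀, ∀ X : ℕ,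
      (Real.log n) ^ 40 ≤ X → (X : ℝ) ≤ Real.exp (√(Real.log n) / 200) →
        (Nat.primeCounting X ≤
          8 * {q : ℕ | q ≤ X ∧ q.Prime ∧ 1 ≤ first n q ∧ 2 ≤ v n (first n q)}.ncard) ∧
        ((X : ℝ) ≤
          52 * Real.log n * ({k : ℕ | 1 ≤ k ∧ k ≤ X ∧ 2 ≤ v n k}.ncard : ℝ))) ∧
    (∀ l : ℕ, {n : ℕ | 1 ≤ n ∧ Vmax l n = 1}.Finite ∧ {n : ℕ | 1 ≤ n ∧ vmax l n = 1}.Finite) := by
  classical
  refine ⟨⟨⌈Real.exp 20000⌉₊, ?_⟩, ?_⟩
  · intro n hn X h1 h2
    have hn' : Real.exp 20000 ≤ n := (Nat.le_ceil _).trans (by exact_mod_cast hn)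
    have hnpos : (0 : ℝ) < n := lt_of_lt_of_le (Real.exp_pos _) hn'
    have hn0 : 0 < n := by exact_mod_cast hnpos
    have hln : (20000 : ℝ) ≤ Real.log n := by
      rw [← Real.log_exp 20000]
      exact Real.log_le_log (Real.exp_pos _) hn'
    obtain ⟨L, w, z, hw8, hw1, hw2, hn1, hn2, hz, hzL, hX1, hX2, hL⟩ := conditions hln h1 h2
    constructor
    · have h := prop' n X L w z hw8 hw1 hw2 hn1 hn2 hz hzL hX1 hX2
      rw [Nat.primeCounting, Nat.primeCounting', Nat.count_eq_card_filter_range]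
      refine h.trans (Nat.mul_le_mul_left _ ?_)
      rw [← Set.ncard_coe_finset]
      refine Set.ncard_le_ncard ?_ ((Set.finite_le_nat X).subset fun q hq => hq.1)
      intro q hq
      rw [Finset.mem_coe, Finset.mem_filter, Finset.mem_filter, Finset.mem_range] at hq
      obtain ⟨⟨h3, h4⟩, h5, h6⟩ := hq
      rw [← first_eq h4] at h5 h6
      exact ⟨by omega, h4, h5, two_le_v (by omega) h6⟩
    · have h := shifts n X L w z hw8 hw1 hw2 hn1 hn2 hz hzL hX1 hX2
      set E := (Finset.Icc 1 X).filter (fun k => Two n k) with hE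
      have h3 : E.card ≤ {k : ℕ | 1 ≤ k ∧ k ≤ X ∧ 2 ≤ v n k}.ncard := by
        rw [← Set.ncard_coe_finset]
        refine Set.ncard_le_ncard ?_ ((Set.finite_le_nat X).subset fun q hq => hq.2.1)
        intro k hk
        rw [Finset.mem_coe, hE, Finset.mem_filter, Finset.mem_Icc] at hk
        exact ⟨hk.1.1, hk.1.2, two_le_v (by omega) hk.2⟩
      have h4 : (X : ℝ) ≤ 36 * (L * (E.card : ℝ)) := by exact_mod_cast h
      have h5 : (E.card : ℝ) ≤ ({k : ℕ | 1 ≤ k ∧ k ≤ X ∧ 2 ≤ v n k}.ncard : ℝ) := by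
        exact_mod_cast h3
      have h6 : 36 * (L : ℝ) ≤ 52 * Real.log n := by linarith
      have hE0 : (0 : ℝ) ≤ E.card := Nat.cast_nonneg _
      calc (X : ℝ) ≤ 36 * (L * (E.card : ℝ)) := h4
        _ = 36 * (L : ℝ) * E.card := by ring
        _ ≤ 52 * Real.log n * E.card := mul_le_mul_of_nonneg_right h6 hE0
        _ ≤ _ := mul_le_mul_of_nonneg_left h5 (by linarith)
  · intro l
    obtain ⟨N0, hN0⟩ := Pool.Agent.Helper377.Main.main l
    have key : ∀ n ≥ N0, 1 ≤ n → (2 : ℕ∞) ≤ vmax l n ∧ (2 : ℕ∞) ≤ Vmax l n := by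
      intro n hn hn1
      obtain ⟨k, hk, htwo⟩ := hN0 n hn
      have h2 : 2 ≤ v n k := two_le_v (by omega) htwo
      have h3 : 2 ≤ V n k := h2.trans (v_le_V n k (by omega))
      constructor
      · refine le_trans ?_ (le_iSup₂ (f := fun k (_ : k ≥ l) => (v n k : ℕ∞)) k hk)
        exact_mod_cast h2
      · refine le_trans ?_ (le_iSup₂ (f := fun k (_ : k ≥ l) => (V n k : ℕ∞)) k hk)
        exact_mod_cast h3
    constructor
    · apply (Set.finite_lt_nat N0).subset
      rintro n ⟨hn1, hn⟩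
      by_contra h
      have h' : N0 ≤ n := by simpa using h
      have := (key n h' hn1).2
      rw [hn] at this
      exact absurd this (by norm_num)
    · apply (Set.finite_lt_nat N0).subset
      rintro n ⟨hn1, hn⟩
      by_contra h
      have h' : N0 ≤ n := by simpa using h
      have := (key n h' hn1).1
      rw [hn] at this
      exact absurd this (by norm_num)

end Pool.Agent.Results.MP_8ddb3c_nt.TwoNewPrimes
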